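import Pool.Agent.Y63.NV.Stm3
import Pool.Agent.Y63.NV.Cutw
import Pool.Agent.Y405.NV.Rinj

set_option autoImplicit false

/-!
# Project NV, the statement WDEF: `Q ∩ G` is contained in a defect group
-/

open scoped Classical

set_option linter.unusedSectionVars false

noncomputable section

namespace Pool.Agent.Y858.NV

open Pool.Agent.Y63.NV Pool.Agent.Y405.NV

section conj

variable {G : Type} [Group G]

/-- centralisers of conjugate elements have the same order -/
theorem card_cent_conj (g x : G) : Nat.card ↥(Subgroup.centralizer {g * x * g⁻¹}) =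
    Nat.card ↥(Subgroup.centralizer {x}) := by
  have h1 : (Subgroup.centralizer {x}).map (MulAut.conj g).toMonoidHom =
      Subgroup.centralizer {g * x * g⁻¹} := by
    ext y
    rw [Subgroup.mem_map, Subgroup.mem_centralizer_iff]
    constructor
    · rintro ⟨c, hc, rfl⟩ h hh
      rw [Set.mem_singleton_iff.1 hh]
      have h2 := Subgroup.mem_centralizer_iff.1 hc x rfl
      show g * x * g⁻¹ * (g * c * g⁻¹) = g * c * g⁻¹ * (g * x * g⁻¹)
      calc g * x * g⁻¹ * (g * c * g⁻¹) = g * (x * c) * g⁻¹ := by group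
        _ = g * (c * x) * g⁻¹ := by rw [h2]
        _ = _ := by group
    · intro h
      have h2 := h _ rfl
      refine ⟨g⁻¹ * y * g, Subgroup.mem_centralizer_iff.2 ?_, ?_⟩
      · intro z hz
        rw [Set.mem_singleton_iff.1 hz]
        calc x * (g⁻¹ * y * g) = g⁻¹ * (g * x * g⁻¹ * y) * g := by group
          _ = g⁻¹ * (y * (g * x * g⁻¹)) * g := by rw [h2]
          _ = _ := by group
      · show g * (g⁻¹ * y * g) * g⁻¹ = y
        group
  rw [← h1]
  exact (Nat.card_congr ((Subgroup.centralizer {x}).equivMapOfInjective _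
    (MulAut.conj g).injective).toEquiv).symm

theorem classValue_conj {F : Type} [Field F] (B : (G → F) → F) {x x' : G} (h : IsConj x x') :
    classValue B x' = classValue B x := by
  unfold classValue
  congr 1
  funext y
  have h1 : IsConj x' y ↔ IsConj x y := ⟨fun h2 => h.trans h2, fun h2 => h.symm.trans h2⟩
  simp only [h1]

theorem classValue_one {F : Type} [Field F] {B : (G → F) → F} (hB : IsBlock B) :
    classValue B 1 = 1 := by
  rw [← hB.one]
  unfold classValue
  congr 1
  funext y
  rw [Pi.single_apply]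
  by_cases hy : y = 1
  · rw [if_pos hy, if_pos (by rw [hy])]
  · rw [if_neg hy, if_neg (fun h => hy (isConj_one_right.1 h))]

theorem isClassFun_conj {F : Type} [Field F] (x : G) :
    IsClassFun (fun y : G => if IsConj x y then (1 : F) else 0) := by
  intro g y
  have h1 : IsConj y (g * y * g⁻¹) := isConj_iff.2 ⟨g, rfl⟩
  have h2 : IsConj x (g * y * g⁻¹) ↔ IsConj x y := ⟨fun h => h.trans h1.symm, fun h => h.trans h1⟩
  simp only [h2]

end conj

/-- the functions which vanish on the centraliser of a `p`-subgroup -/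
theorem vanish {p : ℕ} [Fact p.Prime] {F : Type} [Field F] [CharP F p] {G : Type} [Group G]
    [Finite G] (P : Subgroup G) (hP : IsPGroup p P)
    (a b : Subring.center (MonoidAlgebra F G))
    (ha : ∀ x ∈ Subgroup.centralizer (P : Set G), a.1.coeff x = 0) :
    ∀ x ∈ Subgroup.centralizer (P : Set G), (a * b).1.coeff x = 0 := by
  intro x hx
  have := Fintype.ofFinite G
  have hca := (class_iff a.1).1 a.2
  have hcb := (class_iff b.1).1 b.2
  have h1 : (a * b).1.coeff x = conv (fun x => a.1.coeff x) (fun x => b.1.coeff x) x :=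
    congrFun (coeff_mul_eq a.1 b.1) x
  rw [h1]
  unfold conv
  rw [finsum_eq_sum_of_fintype, sum_cut (p := p) P hP (fun y => a.1.coeff y * b.1.coeff (y⁻¹ * x))]
  · refine Finset.sum_eq_zero fun y _ => ?_
    split_ifs with hy
    · rw [ha y hy, zero_mul]
    · rfl
  · intro r hr y
    have h2 : a.1.coeff (r * y * r⁻¹) = a.1.coeff y := hca r y
    have h3 : (r * y * r⁻¹)⁻¹ * x = r * (y⁻¹ * x) * r⁻¹ := by
      have h4 := Subgroup.mem_centralizer_iff.1 hx r hr
      calc (r * y * r⁻¹)⁻¹ * x = r * y⁻¹ * r⁻¹ * (x * r) * r⁻¹ := by group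
        _ = r * y⁻¹ * r⁻¹ * (r * x) * r⁻¹ := by rw [h4]
        _ = _ := by group
    have h5 : b.1.coeff (r * (y⁻¹ * x) * r⁻¹) = b.1.coeff (y⁻¹ * x) := hcb r (y⁻¹ * x)
    rw [h2, h3, h5]

section

variable {F : Type} [Field F] {Γ : Type} [Group Γ] [Finite Γ] (G : Subgroup Γ) [G.Normal]

/-- extension by zero of a norm -/
def ext0 (w : Subring.center (MonoidAlgebra F G)) : Γ → F :=
  fun x => if hx : x ∈ G then w.1.coeff ⟨x, hx⟩ else 0

theorem ext0_apply (w : Subring.center (MonoidAlgebra F G)) (x : G) :
    ext0 G w x = w.1.coeff x := dif_pos x.2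

theorem ext0_InZ (w : Subring.center (MonoidAlgebra F G)) (hw : ∀ g : Γ, sg G g w = w) :
    InZ G (ext0 G w) := by
  refine ⟨fun g x => ?_, fun x hx => dif_neg hx⟩
  by_cases hx : x ∈ G
  · have hx' : g * x * g⁻¹ ∈ G := (inferInstance : G.Normal).conj_mem x hx g
    have h1 := ext0_apply G w ⟨x, hx⟩
    have h2 := ext0_apply G w ⟨g * x * g⁻¹, hx'⟩
    simp only at h1 h2
    rw [h1, h2]
    have h3 : (sg G g w).1.coeff ⟨g * x * g⁻¹, hx'⟩ = w.1.coeff ⟨g * x * g⁻¹, hx'⟩ := by
      rw [hw]
    rw [← h3, coeff_sg, conj_symm_eq G (x := ⟨x, hx⟩) (y := ⟨g * x * g⁻¹, hx'⟩) rfl]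
  · have hx' : g * x * g⁻¹ ∉ G := by
      intro h
      apply hx
      have := (inferInstance : G.Normal).conj_mem _ h g⁻¹
      simpa [mul_assoc] using this
    show ext0 G w (g * x * g⁻¹) = ext0 G w x
    rw [show ext0 G w (g * x * g⁻¹) = 0 from dif_neg hx', show ext0 G w x = 0 from dif_neg hx]

end

theorem wdef (h1 : S_WBLK) (h2 : S_CUTW) : S_WDEF := by
  intro p _ F _ _ _ red Γ _ _ G _ B hB hI Q hQ hdz
  -- the character
  obtain ⟨⟨χ, hχ, hχB⟩⟩ : Nonempty {χ : Subgroup.normalizer (Q : Set Γ) → ℂ //
      IsWt p (Q.subgroupOf (Subgroup.normalizer (Q : Set Γ))) χ ∧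
      ∀ z : Γ → F, InZ G z → centralValue red χ (fun x => z x) = B (fun x : G => z x)} := by
    by_contra hcon
    rw [not_nonempty_iff] at hcon
    exact hdz Nat.card_of_isEmpty
  -- the element
  obtain ⟨x, hx, hmin⟩ := Set.exists_min_image {x : G | classValue B x ≠ 0}
    (fun x => (Nat.card ↥(Subgroup.centralizer {x})).factorization p) (Set.toFinite _)
    ⟨1, by show classValue B 1 ≠ 0; rw [classValue_one hB]; exact one_ne_zero⟩
  set P : Subgroup G := Q.subgroupOf G with hPdef
  have hP : IsPGroup p P := hQ.comap_subtype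
  -- the claim
  obtain ⟨x', hxx', hcen⟩ : ∃ x' : G, IsConj x x' ∧ x' ∈ Subgroup.centralizer (P : Set G) := by
    by_contra hcon
    push Not at hcon
    set z : Subring.center (MonoidAlgebra F G) :=
      ofC (fun y : G => if IsConj x y then (1 : F) else 0) (isClassFun_conj x) with hz
    set w := nrm G z 0 with hw
    have hzv : ∀ y ∈ Subgroup.centralizer (P : Set G), z.1.coeff y = 0 := by
      intro y hy
      have e1 : z.1.coeff y = if IsConj x y then (1 : F) else 0 := coeff_ofF _ y
      rw [e1, if_neg]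
      intro h
      exact hcon y h hy
    have hwv : ∀ y ∈ Subgroup.centralizer (P : Set G), w.1.coeff y = 0 := by
      let _ := Fintype.ofFinite Γ
      have e0 : (ofS 0 : Subring.center (MonoidAlgebra F G)) = 0 := by
        apply Subtype.ext
        ext y
        rw [coeff_ofS, ite_self]
        rfl
      have e1 : sg G 1 z = z := by
        apply Subtype.ext
        ext y
        rw [coeff_sg]
        congr 1
        rw [map_one]
        rfl
      have e2 : w = z * ∏ g ∈ Finset.univ.erase (1 : Γ), (sg G g z - ofS 0) := by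
        have e3 : w = ∏ g : Γ, (sg G g z - ofS 0) := rfl
        rw [e3, ← Finset.mul_prod_erase Finset.univ _ (Finset.mem_univ (1 : Γ)), e1, e0, sub_zero]
      rw [e2]
      exact vanish P hP _ _ hzv
    have hZ : InZ G (ext0 G w) := ext0_InZ G w fun g => sg_nrm G g z 0
    have h3 := hχB _ hZ
    have h4 : (fun y : G => ext0 G w y) = fun y : G => w.1.coeff y := funext (ext0_apply G w)
    rw [h4] at h3
    have h5 : toRH hB w = B (fun y : G => w.1.coeff y) := rfl
    rw [← h5, hw, toRH_nrm G hB hI, hz, toRH_ofC, sub_zero] at h3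
    have h6 : IsClassFun (fun y : Subgroup.normalizer (Q : Set Γ) => ext0 G w y) := by
      intro g y
      exact hZ.conj g y
    have h7 := h2 p F red (Subgroup.normalizer (Q : Set Γ))
      (Q.subgroupOf (Subgroup.normalizer (Q : Set Γ)))
      (fun y => ext0 G w y) χ inferInstance hQ.comap_subtype h6 hχ
    have h8 : cut (fun y : Subgroup.normalizer (Q : Set Γ) => ext0 G w y)
        (Subgroup.centralizer ((Q.subgroupOf (Subgroup.normalizer (Q : Set Γ)) :
          Subgroup (Subgroup.normalizer (Q : Set Γ))) : Set (Subgroup.normalizer (Q : Set Γ)))) =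
        fun _ => 0 := by
      funext y
      unfold cut
      split_ifs with hy
      · by_cases hyG : (y : Γ) ∈ G
        · have e1 := ext0_apply G w ⟨y, hyG⟩
          simp only at e1
          show ext0 G w y = 0
          rw [e1]
          refine hwv _ (Subgroup.mem_centralizer_iff.2 ?_)
          intro r hr
          have hr' : ((r : G) : Γ) ∈ Q := Subgroup.mem_subgroupOf.1 hr
          have hr2 : ((r : G) : Γ) ∈ Subgroup.normalizer (Q : Set Γ) := Subgroup.le_normalizer hr'
          have e2 := Subgroup.mem_centralizer_iff.1 hy ⟨((r : G) : Γ), hr2⟩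
            (Subgroup.mem_subgroupOf.2 hr')
          have e3 : ((r : G) : Γ) * (y : Γ) = (y : Γ) * ((r : G) : Γ) := congrArg Subtype.val e2
          exact Subtype.ext e3
        · exact hZ.supp _ hyG
      · rfl
    rw [h8] at h7
    have h9 : centralValue red χ (fun _ : Subgroup.normalizer (Q : Set Γ) => (0 : F)) = 0 := by
      unfold centralValue
      simp only [zero_mul, finsum_zero]
    rw [h9] at h7
    rw [← h7] at h3
    exact pow_ne_zero _ hx h3.symm
  -- the defect group
  have hcard : Nat.card ↥(Subgroup.centralizer {x'}) = Nat.card ↥(Subgroup.centralizer {x}) := by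
    obtain ⟨g, rfl⟩ := isConj_iff.1 hxx'
    exact card_cent_conj g x
  have hPC : P ≤ Subgroup.centralizer {x'} := by
    intro r hr
    rw [Subgroup.mem_centralizer_iff]
    intro y hy
    rw [Set.mem_singleton_iff.1 hy]
    exact (Subgroup.mem_centralizer_iff.1 hcen r hr).symm
  obtain ⟨S, hS⟩ := (hP.comap_subtype (K := Subgroup.centralizer {x'})).exists_le_sylow
  refine ⟨(S : Subgroup ↥(Subgroup.centralizer {x'})).map (Subgroup.centralizer {x'}).subtype,
    ⟨x', ?_, ?_, Subgroup.map_subtype_le _, S.isPGroup'.map _, ?_⟩, ?_⟩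
  · rw [classValue_conj B hxx']
    exact hx
  · intro y hy
    rw [hcard]
    exact hmin y hy
  · rw [Subgroup.card_map_of_injective (Subgroup.subtype_injective _), S.card_eq_multiplicity,
      Nat.factorization_pow, Finsupp.smul_apply, Nat.Prime.factorization_self Fact.out,
      smul_eq_mul, mul_one]
  · intro r hr
    exact ⟨⟨r, hPC hr⟩, hS hr, rfl⟩

end Pool.Agent.Y858.NV
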